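import Pool.Agent.Lib.H38I.AS6
import Pool.Agent.Lib.H38H.AS7

/-!
H38H, chunk AS8 (S/M): few automorphisms move at most four points.
-/

set_option autoImplicit false

namespace Pool.Agent.H38H.Own

open Classical

/-- PROOF. Let T be the set of the automorphisms τ with |supp τ| ≤ 4. If there is U with |U| ≤ 20 and hull G τ ⊆ U for all τ in T then the number is at most |U|! ≤ 20! (card_supp, supp ⊆ hull). Otherwise: U0 = ∅, choose τ1 in T
with hull not in U0, U1 = U0 ∪ hull τ1, |U1| ≤ 10 (hull_card), τ2 with hull not in U1, U2 = U1 ∪ hull τ2, |U2| ≤ 20, τ3 with hull not in U2, U3 = U2 ∪ hull τ3, |U3| ≤ 30; hull_lt three times: eIn G U3 ≥ |U3| + 3, contradiction to the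
hypothesis. -/
theorem fewSmallAut : FewSmallAut := by
  intro N G hG hW
  by_cases hU : ∃ U : Finset (Fin N), U.card ≤ 20 ∧ ∀ τ : Equiv.Perm (Fin N), IsAut G τ →
      τ.support.card ≤ 4 → hull G τ ⊆ U
  · obtain ⟨U, hU, hT⟩ := hU
    have h1 : Nat.card {τ : Equiv.Perm (Fin N) // IsAut G τ ∧ τ.support.card ≤ 4} ≤
        Nat.card {τ : Equiv.Perm (Fin N) // τ.support ⊆ U} :=
      Nat.card_mono (Set.toFinite {τ : Equiv.Perm (Fin N) | τ.support ⊆ U}) fun τ hτ x hx =>
        hT τ hτ.1 hτ.2 (as6_mem.2 (Or.inl hx))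
    rw [card_supp] at h1
    exact h1.trans ((Nat.factorial_le hU).trans (Nat.le_succ _))
  · have step : ∀ U : Finset (Fin N), U.card ≤ 20 → ∃ U' : Finset (Fin N), U'.card ≤ U.card + 10 ∧
        ∀ n : ℕ, U.card + n ≤ eIn G U → U'.card + (n + 1) ≤ eIn G U' := by
      intro U hUc
      have hne : ¬ ∀ τ : Equiv.Perm (Fin N), IsAut G τ → τ.support.card ≤ 4 → hull G τ ⊆ U :=
        fun h => hU ⟨U, hUc, h⟩
      push Not at hne
      obtain ⟨τ, h1, h2, h3⟩ := hne
      refine ⟨U ∪ hull G τ, ?_, fun n hn => ?_⟩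
      · have e1 := hull_card hG h1 h2
        have e2 := Finset.card_union_le U (hull G τ)
        omega
      · have e1 := hull_lt hG h1 U h3
        omega
    obtain ⟨U1, h1, g1⟩ := step ∅ (by simp)
    obtain ⟨U2, h2, g2⟩ := step U1 (by simp at h1; omega)
    obtain ⟨U3, h3, g3⟩ := step U2 (by simp at h1; omega)
    have e0 : (∅ : Finset (Fin N)).card + 0 ≤ eIn G ∅ := by simp
    have e3 := g3 _ (g2 _ (g1 0 e0))
    have e4 := hW U3 (by simp at h1; omega)
    omega

end Pool.Agent.H38H.Own
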