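import Pool.Agent.Lib.H38H.AS5

/-!
H38H, chunk AS6 (M): the edges at the support of an automorphism.
-/

set_option autoImplicit false

namespace Pool.Agent.H38H.Own

open Classical

variable {N : ℕ}

theorem as6_deg {V : Type} [Fintype V] {G : SimpleGraph V} (hG : Cubic G) (v : V) :
    (Finset.univ.filter (fun w => G.Adj v w)).card = 3 := by
  rw [← hG v, ← Set.ncard_coe_finset]
  congr 1
  ext w
  simp

theorem as6_sub (G : SimpleGraph (Fin N)) {U U' : Finset (Fin N)} (h : U ⊆ U') :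
    2 * eIn G U' = 2 * eIn G U + (∑ v ∈ U' \ U, (U'.filter (fun w => G.Adj v w)).card) +
      ((U ×ˢ (U' \ U)).filter (fun p => G.Adj p.1 p.2)).card := by
  have h1 := two_eIn_sub G h
  have hd : (fun a b : Fin N => Classical.propDecidable (a = b)) = instDecidableEqFin N :=
    Subsingleton.elim _ _
  rw [hd] at h1
  exact h1

theorem as6_mem {G : SimpleGraph (Fin N)} {τ : Equiv.Perm (Fin N)} {v : Fin N} :
    v ∈ hull G τ ↔ v ∈ τ.support ∨ ∃ s ∈ τ.support, G.Adj s v := by
  unfold hull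
  rw [Finset.mem_union, Finset.mem_filter]
  simp only [Finset.mem_univ, true_and]

/-- PROOF. Let s be in the support, adjacent to f. τ s ≠ s is in the support and τ s is adjacent to τ f = f. -/
theorem two_nbrs {G : SimpleGraph (Fin N)} {τ : Equiv.Perm (Fin N)} (hτ : IsAut G τ) {f : Fin N}
    (hf : f ∈ hull G τ) (hf' : f ∉ τ.support) :
    2 ≤ (τ.support.filter (fun s => G.Adj f s)).card := by
  obtain ⟨s, hs, hsf⟩ := (as6_mem.1 hf).resolve_left hf'
  have h1 : τ f = f := Equiv.Perm.notMem_support.1 hf'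
  have h2 : G.Adj (τ s) f := by
    have := (hτ s f).2 hsf
    rwa [h1] at this
  have h3 : τ s ≠ s := Equiv.Perm.mem_support.1 hs
  have h4 : τ s ∈ τ.support := Equiv.Perm.apply_mem_support.2 hs
  exact Finset.one_lt_card.2 ⟨s, Finset.mem_filter.2 ⟨hs, hsf.symm⟩, τ s,
    Finset.mem_filter.2 ⟨h4, h2.symm⟩, h3.symm⟩

/-- PROOF. S = support, F = hull \ S. Count the pairs (s,f), s ∈ S, f ∈ F, adjacent: at least 2 |F| (two_nbrs) and at most 3 |S| ≤ 12 (every s has three neighbours). So |F| ≤ 6. -/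
theorem hull_card {G : SimpleGraph (Fin N)} (hG : Cubic G) {τ : Equiv.Perm (Fin N)} (hτ : IsAut G τ)
    (h4 : τ.support.card ≤ 4) : (hull G τ).card ≤ 10 := by
  set S := τ.support with hS
  set F := hull G τ \ S with hF
  have h1 := Finset.sum_card_bipartiteAbove_eq_sum_card_bipartiteBelow (s := S) (t := F)
    (fun s f => G.Adj f s)
  have h2 : ∑ s ∈ S, (Finset.bipartiteAbove (fun s f => G.Adj f s) F s).card ≤ ∑ _s ∈ S, 3 := by
    refine Finset.sum_le_sum fun s _ => ?_
    rw [← as6_deg hG s]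
    refine Finset.card_le_card ?_
    intro f hf
    have hf' := (Finset.mem_filter.1 hf).2
    exact Finset.mem_filter.2 ⟨Finset.mem_univ _, hf'.symm⟩
  have h3 : ∑ _f ∈ F, 2 ≤ ∑ f ∈ F, (Finset.bipartiteBelow (fun s f => G.Adj f s) S f).card := by
    refine Finset.sum_le_sum fun f hf => ?_
    rw [hF, Finset.mem_sdiff] at hf
    exact two_nbrs hτ hf.1 hf.2
  rw [Finset.sum_const, smul_eq_mul] at h2 h3
  have h5 : (hull G τ).card ≤ F.card + S.card := by
    exact Finset.card_le_card_sdiff_add_card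
  omega

/-- two neighbours of a vertex of the hull in any set that contains the hull, three for the vertices of the support -/
theorem as6_two {G : SimpleGraph (Fin N)} {τ : Equiv.Perm (Fin N)} (hτ : IsAut G τ) {U' : Finset (Fin N)}
    (hU : hull G τ ⊆ U') {v : Fin N} (hv : v ∈ hull G τ) (hv' : v ∉ τ.support) :
    2 ≤ (U'.filter (fun w => G.Adj v w)).card := by
  refine (two_nbrs hτ hv hv').trans (Finset.card_le_card ?_)
  intro s hs
  obtain ⟨h1, h2⟩ := Finset.mem_filter.1 hs
  exact Finset.mem_filter.2 ⟨hU (as6_mem.2 (Or.inl h1)), h2⟩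

theorem as6_three {G : SimpleGraph (Fin N)} (hG : Cubic G) {τ : Equiv.Perm (Fin N)} {U' : Finset (Fin N)}
    (hU : hull G τ ⊆ U') {v : Fin N} (hv' : v ∈ τ.support) :
    3 ≤ (U'.filter (fun w => G.Adj v w)).card := by
  rw [← as6_deg hG v]
  refine Finset.card_le_card ?_
  intro w hw
  have h2 := (Finset.mem_filter.1 hw).2
  exact Finset.mem_filter.2 ⟨hU (as6_mem.2 (Or.inr ⟨v, hv', h2⟩)), h2⟩

theorem as6_sum {G : SimpleGraph (Fin N)} (hG : Cubic G) {τ : Equiv.Perm (Fin N)} (hτ : IsAut G τ)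
    (U : Finset (Fin N)) : 2 * ((U ∪ hull G τ) \ U).card ≤
      ∑ v ∈ (U ∪ hull G τ) \ U, ((U ∪ hull G τ).filter (fun w => G.Adj v w)).card := by
  rw [mul_comm, ← smul_eq_mul, ← Finset.sum_const]
  refine Finset.sum_le_sum fun v hv => ?_
  obtain ⟨h1, h2⟩ := Finset.mem_sdiff.1 hv
  have h3 : v ∈ hull G τ := (Finset.mem_union.1 h1).resolve_left h2
  by_cases h4 : v ∈ τ.support
  · have := as6_three hG (Finset.subset_union_right (s₁ := U) (s₂ := hull G τ)) h4
    omega
  · exact as6_two hτ Finset.subset_union_right h3 h4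

/-- PROOF. U' = U ∪ hull, A = U' \ U. two_eIn_sub. A vertex of A ∩ S (S = support) has its three neighbours in U' (all in the hull); a vertex of A \ S has at least two neighbours in S
(two_nbrs), so in U'. So 2 eIn U' ≥ 2 eIn U + 2 |A|. -/
theorem hull_le {G : SimpleGraph (Fin N)} (hG : Cubic G) {τ : Equiv.Perm (Fin N)} (hτ : IsAut G τ)
    (U : Finset (Fin N)) :
    eIn G U + (U ∪ hull G τ).card ≤ eIn G (U ∪ hull G τ) + U.card := by
  have h1 := as6_sub G (Finset.subset_union_left (s₁ := U) (s₂ := hull G τ))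
  have h2 := as6_sum hG hτ U
  have h3 := Finset.card_sdiff_add_card_eq_card (Finset.subset_union_left (s₁ := U) (s₂ := hull G τ))
  omega

/-- PROOF. As in hull_le. If A is not empty: if A meets S there is one more pair at a vertex of A ∩ S (three neighbours); otherwise S ⊆ U and a vertex of A has a neighbour in S ⊆ U, which gives a pair in the last
term of two_eIn_sub. So 2 eIn U' ≥ 2 eIn U + 2 |A| + 1, and everything is an integer. -/
theorem hull_lt {G : SimpleGraph (Fin N)} (hG : Cubic G) {τ : Equiv.Perm (Fin N)} (hτ : IsAut G τ)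
    (U : Finset (Fin N)) (h : ¬ hull G τ ⊆ U) :
    eIn G U + (U ∪ hull G τ).card + 1 ≤ eIn G (U ∪ hull G τ) + U.card := by
  have h1 := as6_sub G (Finset.subset_union_left (s₁ := U) (s₂ := hull G τ))
  have h2 := as6_sum hG hτ U
  have h3 := Finset.card_sdiff_add_card_eq_card (Finset.subset_union_left (s₁ := U) (s₂ := hull G τ))
  by_cases hA : ∃ v ∈ (U ∪ hull G τ) \ U, v ∈ τ.support
  · obtain ⟨v, hv, hvs⟩ := hA
    have h4 : 2 * ((U ∪ hull G τ) \ U).card <
        ∑ v ∈ (U ∪ hull G τ) \ U, ((U ∪ hull G τ).filter (fun w => G.Adj v w)).card := by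
      rw [mul_comm, ← smul_eq_mul, ← Finset.sum_const]
      refine Finset.sum_lt_sum (fun u hu => ?_) ⟨v, hv, ?_⟩
      · obtain ⟨h1, h2⟩ := Finset.mem_sdiff.1 hu
        have h3 : u ∈ hull G τ := (Finset.mem_union.1 h1).resolve_left h2
        by_cases h4 : u ∈ τ.support
        · have := as6_three hG (Finset.subset_union_right (s₁ := U) (s₂ := hull G τ)) h4
          omega
        · exact as6_two hτ Finset.subset_union_right h3 h4
      · exact as6_three hG (Finset.subset_union_right (s₁ := U) (s₂ := hull G τ)) hvs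
    omega
  · obtain ⟨v, hv, hvU⟩ := Finset.not_subset.1 h
    have hvA : v ∈ (U ∪ hull G τ) \ U := Finset.mem_sdiff.2 ⟨Finset.mem_union_right _ hv, hvU⟩
    have hvs : v ∉ τ.support := fun h => hA ⟨v, hvA, h⟩
    obtain ⟨s, hs, hsv⟩ := (as6_mem.1 hv).resolve_left hvs
    have hsU : s ∈ U := by
      by_contra hs'
      exact hA ⟨s, Finset.mem_sdiff.2 ⟨Finset.mem_union_right _ (as6_mem.2 (Or.inl hs)), hs'⟩, hs⟩
    have h4 : 0 < ((U ×ˢ ((U ∪ hull G τ) \ U)).filter (fun p => G.Adj p.1 p.2)).card :=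
      Finset.card_pos.2 ⟨(s, v), Finset.mem_filter.2 ⟨Finset.mem_product.2 ⟨hsU, hvA⟩, hsv⟩⟩
    omega

end Pool.Agent.H38H.Own
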