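import Pool.Agent.Lib.H38H.VO.Defs

/-!
Project H38H, chunk VO2 (M).
-/

set_option autoImplicit false

namespace Pool.Agent.H38H.VO.Own

open Classical

/-- extension of a bijection of the complements -/
noncomputable def vo2_ext {ι κ : Type} (i0 : ι) (a : κ) (τ : {i // i ≠ i0} ≃ {j // j ≠ a}) : ι ≃ κ where
  toFun i := if h : i = i0 then a else (τ ⟨i, h⟩).1
  invFun j := if h : j = a then i0 else (τ.symm ⟨j, h⟩).1
  left_inv i := by
    by_cases h : i = i0
    · simp [h]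
    · have h1 : (τ ⟨i, h⟩).1 ≠ a := (τ ⟨i, h⟩).2
      simp only [dif_neg h, dif_neg h1, Subtype.coe_eta, Equiv.symm_apply_apply]
  right_inv j := by
    by_cases h : j = a
    · simp [h]
    · have h1 : (τ.symm ⟨j, h⟩).1 ≠ i0 := (τ.symm ⟨j, h⟩).2
      simp only [dif_neg h, dif_neg h1, Subtype.coe_eta, Equiv.apply_symm_apply]

theorem vo2_ext_zero {ι κ : Type} (i0 : ι) (a : κ) (τ : {i // i ≠ i0} ≃ {j // j ≠ a}) :
    vo2_ext i0 a τ i0 = a := dif_pos rfl

theorem vo2_ext_sub {ι κ : Type} (i0 : ι) (a : κ) (τ : {i // i ≠ i0} ≃ {j // j ≠ a}) (i : {i // i ≠ i0}) :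
    vo2_ext i0 a τ i.1 = (τ i).1 := dif_neg i.2

noncomputable def vo2_eq {ι κ : Type} (i0 : ι) (a : κ) :
    ({i // i ≠ i0} ≃ {j // j ≠ a}) ≃ {σ : ι ≃ κ // σ i0 = a} where
  toFun τ := ⟨vo2_ext i0 a τ, vo2_ext_zero i0 a τ⟩
  invFun σ := σ.1.subtypeEquiv (fun i =>
    ⟨fun h1 h2 => h1 (σ.1.injective (h2.trans σ.2.symm)), fun h1 h2 => h1 (by rw [h2]; exact σ.2)⟩)
  left_inv τ := by
    apply Equiv.ext
    intro i
    apply Subtype.ext
    exact vo2_ext_sub i0 a τ i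
  right_inv σ := by
    apply Subtype.ext
    apply Equiv.ext
    intro i
    by_cases h : i = i0
    · rw [h]
      exact (vo2_ext_zero i0 a _).trans σ.2.symm
    · exact vo2_ext_sub i0 a _ ⟨i, h⟩

theorem vo2_prod {ι : Type} [Fintype ι] (f : ι → ℕ) (i0 : ι) :
    ∏ i, f i = f i0 * ∏ i : {i // i ≠ i0}, f i.1 := by
  rw [← Finset.mul_prod_erase _ _ (Finset.mem_univ i0)]
  congr 1
  rw [← Finset.prod_subtype]
  simp

theorem vo2_per {ι κ : Type} [Fintype ι] [Fintype κ] [Fintype (ι ≃ κ)] (A : ι → κ → ℕ) :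
    per A = ∑ σ : ι ≃ κ, ∏ i, A i (σ i) := by
  unfold per
  exact congrArg (fun F : Fintype (ι ≃ κ) => ∑ σ ∈ @Finset.univ (ι ≃ κ) F, ∏ i, A i (σ i))
    (Subsingleton.elim _ _)

/-- expansion along a row -/
theorem vo2_row {ι κ : Type} [Fintype ι] [Fintype κ] (A : ι → κ → ℕ) (i0 : ι) :
    per A = ∑ j, A i0 j * per (fun (i : {i // i ≠ i0}) (j' : {j' // j' ≠ j}) => A i.1 j'.1) := by
  rw [vo2_per, ← Finset.sum_fiberwise (s := Finset.univ) (g := fun σ : ι ≃ κ => σ i0)]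
  refine Finset.sum_congr rfl fun j _ => ?_
  rw [vo2_per, Finset.mul_sum]
  have h1 : ∑ σ ∈ Finset.univ.filter (fun σ : ι ≃ κ => σ i0 = j), ∏ i, A i (σ i) =
      ∑ σ : {σ : ι ≃ κ // σ i0 = j}, ∏ i, A i (σ.1 i) :=
    Finset.sum_subtype _ (by simp) _
  rw [h1, ← (vo2_eq i0 j).sum_comp]
  refine Finset.sum_congr rfl fun τ _ => ?_
  rw [vo2_prod _ i0]
  congr 1
  · exact congrArg (A i0) (vo2_ext_zero i0 j τ)
  · refine Finset.prod_congr rfl fun i _ => ?_
    exact congrArg (A i.1) (vo2_ext_sub i0 j τ i)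

theorem per_contract {ι κ : Type} [Fintype ι] [Fintype κ] (A : ι → κ → ℕ) (i0 : ι) (a b : κ) (hab : a ≠ b)
    (h : ∀ j, A i0 j = (if j = a then 1 else 0) + (if j = b then 1 else 0)) :
    per A = per (ctr A i0 a b) := by
  rw [vo2_row A i0]
  have h1 : ∑ j, A i0 j * per (fun (i : {i // i ≠ i0}) (j' : {j' // j' ≠ j}) => A i.1 j'.1) =
      per (fun (i : {i // i ≠ i0}) (j' : {j' // j' ≠ a}) => A i.1 j'.1) +
      per (fun (i : {i // i ≠ i0}) (j' : {j' // j' ≠ b}) => A i.1 j'.1) := by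
    have h2 : ∀ j, A i0 j * per (fun (i : {i // i ≠ i0}) (j' : {j' // j' ≠ j}) => A i.1 j'.1) =
        (if j = a then per (fun (i : {i // i ≠ i0}) (j' : {j' // j' ≠ j}) => A i.1 j'.1) else 0) +
        (if j = b then per (fun (i : {i // i ≠ i0}) (j' : {j' // j' ≠ j}) => A i.1 j'.1) else 0) := by
      intro j
      rw [h j, add_mul]
      congr 1 <;> split_ifs <;> simp
    rw [Finset.sum_congr rfl fun j _ => h2 j, Finset.sum_add_distrib, Finset.sum_ite_eq' Finset.univ a,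
      Finset.sum_ite_eq' Finset.univ b, if_pos (Finset.mem_univ _), if_pos (Finset.mem_univ _)]
  rw [h1]
  let e : {j // j ≠ a} ≃ {j // j ≠ b} := (Equiv.swap a b).subtypeEquiv (fun j => by
    have h3 : Equiv.swap a b a = b := Equiv.swap_apply_left a b
    constructor
    · intro hj h4
      exact hj ((Equiv.swap a b).injective (h4.trans h3.symm))
    · intro hj h4
      exact hj (by rw [h4, h3]))
  have he : ∀ j : {j // j ≠ a}, (e j).1 = Equiv.swap a b j.1 := fun j => rfl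
  have h3 : per (fun (i : {i // i ≠ i0}) (j' : {j' // j' ≠ b}) => A i.1 j'.1) =
      ∑ τ : {i // i ≠ i0} ≃ {j // j ≠ a}, ∏ i, A i.1 (Equiv.swap a b (τ i).1) := by
    rw [vo2_per, ← (Equiv.equivCongr (Equiv.refl {i // i ≠ i0}) e).sum_comp]
    rfl
  rw [h3, vo2_per, vo2_per, ← Finset.sum_add_distrib]
  refine Finset.sum_congr rfl fun τ _ => ?_
  set i1 : {i // i ≠ i0} := τ.symm ⟨b, fun e => hab e.symm⟩ with hi1
  have h4 : (τ i1).1 = b := by rw [hi1, Equiv.apply_symm_apply]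
  have h5 : ∀ i, i ≠ i1 → (τ i).1 ≠ b := by
    intro i hne hi
    exact hne ((Equiv.eq_symm_apply τ).2 (Subtype.ext hi))
  rw [← Finset.mul_prod_erase Finset.univ (fun i => A i.1 (τ i).1) (Finset.mem_univ i1),
    ← Finset.mul_prod_erase Finset.univ (fun i => A i.1 (Equiv.swap a b (τ i).1)) (Finset.mem_univ i1),
    ← Finset.mul_prod_erase Finset.univ (fun i => ctr A i0 a b i (τ i)) (Finset.mem_univ i1)]
  have h6 : ∏ i ∈ Finset.univ.erase i1, A i.1 (Equiv.swap a b (τ i).1) = ∏ i ∈ Finset.univ.erase i1, A i.1 (τ i).1 :=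
    Finset.prod_congr rfl fun i hi => by
      rw [Equiv.swap_apply_of_ne_of_ne (τ i).2 (h5 i (Finset.ne_of_mem_erase hi))]
  have h7 : ∏ i ∈ Finset.univ.erase i1, ctr A i0 a b i (τ i) = ∏ i ∈ Finset.univ.erase i1, A i.1 (τ i).1 :=
    Finset.prod_congr rfl fun i hi => by
      unfold ctr
      rw [if_neg (h5 i (Finset.ne_of_mem_erase hi)), add_zero]
  rw [h6, h7, h4, Equiv.swap_apply_right, ← add_mul]
  congr 1
  unfold ctr
  rw [if_pos h4, h4]

/-- if row `i0` is twice a unit vector -/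
theorem per_double {ι κ : Type} [Fintype ι] [Fintype κ] (A : ι → κ → ℕ) (i0 : ι) (a : κ)
    (h : ∀ j, A i0 j = if j = a then 2 else 0) :
    per A = 2 * per (fun (i : {i // i ≠ i0}) (j : {j // j ≠ a}) => A i.1 j.1) := by
  rw [vo2_row A i0]
  have h2 : ∀ j, A i0 j * per (fun (i : {i // i ≠ i0}) (j' : {j' // j' ≠ j}) => A i.1 j'.1) =
      (if j = a then 2 * per (fun (i : {i // i ≠ i0}) (j' : {j' // j' ≠ j}) => A i.1 j'.1) else 0) := by
    intro j
    rw [h j]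
    split_ifs <;> simp
  rw [Finset.sum_congr rfl fun j _ => h2 j, Finset.sum_ite_eq' Finset.univ a, if_pos (Finset.mem_univ _)]

end Pool.Agent.H38H.VO.Own
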