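import Pool.Agent.Lib.H38I.VO5
import Pool.Agent.Lib.H38H.VO.VO10
import Pool.Agent.Lib.H38H.VO.VO12
import Pool.Agent.Lib.H38H.VO.VO14
import Pool.Agent.Lib.H38H.VO.VO15
import Pool.Agent.Lib.H38H.VO.VO16
import Pool.Agent.Lib.H38H.VO.VO17

/-!
Project H38H, module VO: assembly (helper92).
-/

set_option autoImplicit false

namespace Pool.Agent.H38H.VO.Own

open Classical

theorem w1_nonneg {V : Type} [Fintype V] (π : Equiv.Perm V) : 0 ≤ w1 π := by
  unfold w1
  split_ifs
  · positivity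
  · exact le_rfl

/-- total weight -/
theorem sum_w1_total {V : Type} [Fintype V] (n : ℕ) (hn : 1 ≤ n) (hV : Fintype.card V = 2 * n) :
    ∑ π : Equiv.Perm V, w1 π ≤ (2 * n + 1) * (6 * n) * ((4 / 3 : ℝ) ^ (2 * n) * X (2 * n)) := by
  refine (sum_w1_le (V := V)).trans ((sum_D_le n hV).trans ?_)
  have h := final_ratio n hn
  have h2 : (0 : ℝ) ≤ 2 * n + 1 := by positivity
  calc (2 * n + 1 : ℝ) * (Nat.factorial (2 * n) : ℝ) * (cPM (2 * n) : ℝ) * (4 / 3 : ℝ) ^ (n + 1)
      = (2 * n + 1) * ((Nat.factorial (2 * n) : ℝ) * (cPM (2 * n) : ℝ) * (4 / 3 : ℝ) ^ (n + 1)) := by ring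
    _ ≤ (2 * n + 1) * (6 * n * ((4 / 3 : ℝ) ^ (2 * n) * X (2 * n))) := by gcongr
    _ = _ := by ring

/-- double counting -/
theorem double_count {V : Type} [Fintype V] [Nonempty V] (Q : SimpleGraph V → Prop)
    (hQ : ∀ G, Q G → Cubic G) :
    (4 / 3 : ℝ) ^ Fintype.card V * (Nat.card {G : SimpleGraph V // Q G} : ℝ) ≤
      ∑ π : Equiv.Perm V, (Nat.card {G : SimpleGraph V // Q G ∧ Compat G π} : ℝ) := by
  have h1 : ∀ π : Equiv.Perm V, (Nat.card {G : SimpleGraph V // Q G ∧ Compat G π} : ℝ) =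
      ∑ G : {G : SimpleGraph V // Q G}, if Compat G.1 π then (1 : ℝ) else 0 := by
    intro π
    rw [Finset.sum_boole]
    congr 1
    rw [Nat.card_eq_fintype_card, ← Fintype.card_subtype]
    apply Fintype.card_congr
    exact ⟨fun x => ⟨⟨x.1, x.2.1⟩, x.2.2⟩, fun x => ⟨x.1.1, x.1.2, x.2⟩, fun x => rfl, fun x => rfl⟩
  simp_rw [h1]
  rw [Finset.sum_comm]
  have h2 : ∀ G : {G : SimpleGraph V // Q G}, (4 / 3 : ℝ) ^ Fintype.card V ≤
      ∑ π : Equiv.Perm V, if Compat G.1 π then (1 : ℝ) else 0 := by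
    intro G
    have h3 := compat_count G.1 (hQ _ G.2)
    rw [Finset.sum_boole]
    rw [Nat.card_eq_fintype_card, Fintype.card_subtype] at h3
    exact h3
  calc (4 / 3 : ℝ) ^ Fintype.card V * (Nat.card {G : SimpleGraph V // Q G} : ℝ)
      = ∑ G : {G : SimpleGraph V // Q G}, (4 / 3 : ℝ) ^ Fintype.card V := by
        rw [Finset.sum_const, Nat.card_eq_fintype_card, nsmul_eq_mul, Finset.card_univ, mul_comm]
    _ ≤ _ := Finset.sum_le_sum (fun G _ => h2 G)

/-- sum over the permutations, with the marks -/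
theorem sum_marks {V : Type} [Fintype V] (E : Finset (Sym2 V)) (hE : Marks E)
    (hE4 : 4 * E.card ≤ Fintype.card V) (hV : 0 < Fintype.card V) :
    ∑ π : Equiv.Perm V, (8 / (Fintype.card V : ℝ)) ^ (E.card - (piMarks π E).card) * w1 π ≤
      (16 / (Fintype.card V : ℝ)) ^ E.card * ∑ π : Equiv.Perm V, w1 π := by
  have hq : (0 : ℝ) ≤ 8 / (Fintype.card V : ℝ) := by positivity
  have h1 : ∀ π : Equiv.Perm V,
      (8 / (Fintype.card V : ℝ)) ^ (E.card - (piMarks π E).card) * w1 π ≤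
        ∑ F ∈ E.powerset, (8 / (Fintype.card V : ℝ)) ^ (E.card - F.card) *
          (if (∀ e ∈ F, ∃ v, e = s(v, π v)) then w1 π else 0) := by
    intro π
    have hmem : piMarks π E ∈ E.powerset := by
      rw [Finset.mem_powerset]
      exact piMarks_subset π E
    have hle := Finset.single_le_sum (f := fun F => (8 / (Fintype.card V : ℝ)) ^ (E.card - F.card) *
          (if (∀ e ∈ F, ∃ v, e = s(v, π v)) then w1 π else 0)) (s := E.powerset) (fun F _ => by
            have := w1_nonneg π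
            split_ifs <;> positivity) hmem
    refine le_trans (le_of_eq ?_) hle
    have hall : ∀ e ∈ piMarks π E, ∃ v, e = s(v, π v) := by
      intro e he
      exact ((mem_piMarks π E e).1 he).2
    rw [if_pos hall]
  refine (Finset.sum_le_sum (fun π _ => h1 π)).trans ?_
  rw [Finset.sum_comm]
  have h2 : ∀ F ∈ E.powerset, ∑ π : Equiv.Perm V, (8 / (Fintype.card V : ℝ)) ^ (E.card - F.card) *
          (if (∀ e ∈ F, ∃ v, e = s(v, π v)) then w1 π else 0) ≤
        (8 / (Fintype.card V : ℝ)) ^ E.card * ∑ π : Equiv.Perm V, w1 π := by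
    intro F hF
    have hFE := Finset.mem_powerset.1 hF
    have hc := Finset.card_le_card hFE
    rw [← Finset.mul_sum]
    have h3 := sum_class (V := V) w1 w1_nonneg w1_conj F
      ⟨fun e he => hE.1 e (hFE he), fun e he f hf hne v hv => hE.2 e (hFE he) f (hFE hf) hne v hv⟩
      (by omega) hV
    calc _ ≤ (8 / (Fintype.card V : ℝ)) ^ (E.card - F.card) *
          ((8 / (Fintype.card V : ℝ)) ^ F.card * ∑ π : Equiv.Perm V, w1 π) := by
          gcongr
      _ = _ := by
          rw [← mul_assoc, ← pow_add]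
          congr 2
          omega
  refine (Finset.sum_le_sum h2).trans (le_of_eq ?_)
  rw [Finset.sum_const, Finset.card_powerset, nsmul_eq_mul, ← mul_assoc]
  congr 1
  push_cast
  rw [← mul_pow]
  congr 1
  ring

theorem theoremH_of_VO (h : PropP) : TheoremH := by
  intro A
  obtain ⟨κ, hκ⟩ := h (A + 3)
  refine ⟨κ, fun m₀ => ?_⟩
  obtain ⟨N₀, hN₀⟩ := hκ m₀
  refine ⟨16, max N₀ (4 * m₀ + 4), ?_⟩
  intro N hN hev V _ hV E hE hEm
  have hN1 : N₀ ≤ N := le_trans (le_max_left _ _) hN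
  have hN2 : 4 * m₀ + 4 ≤ N := le_trans (le_max_right _ _) hN
  have hVpos : 0 < Fintype.card V := by omega
  have : Nonempty V := Fintype.card_pos_iff.1 hVpos
  obtain ⟨n, hn⟩ := hev
  have hn1 : 1 ≤ n := by omega
  have hVn : Fintype.card V = 2 * n := by omega
  have hE4 : 4 * E.card ≤ Fintype.card V := by omega
  set Q : SimpleGraph V → Prop := fun G => Cubic G ∧ (∀ e ∈ E, e ∈ G.edgeSet) ∧ Nice κ G E ∧ ¬ HC G E
    with hQ
  have hdc := double_count Q (fun G hG => hG.1)
  have hpi : ∀ π : Equiv.Perm V, (Nat.card {G : SimpleGraph V // Q G ∧ Compat G π} : ℝ) ≤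
      (8 / (Fintype.card V : ℝ)) ^ (E.card - (piMarks π E).card) * w1 π /
        (Fintype.card V : ℝ) ^ (A + 3) := by
    intro π
    refine per_pi (A + 3) κ hVpos ⟨n, by omega⟩ π E hE hE4 ?_
    intro hπ hlong ξ hξ
    rw [hV] at hlong ⊢
    exact hN₀ N hN1 ⟨n, hn⟩ V hV π hπ (by exact_mod_cast hlong) E hE hEm ξ hξ
  have hsum := Finset.sum_le_sum (fun π (_ : π ∈ Finset.univ) => hpi π)
  rw [← Finset.sum_div] at hsum
  have hmarks := sum_marks E hE hE4 hVpos
  have htot := sum_w1_total n hn1 hVn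
  have hNpos : (0 : ℝ) < N := by
    have : 0 < N := by omega
    exact_mod_cast this
  have hX : 0 ≤ X N := by unfold X; positivity
  have hcN : (Fintype.card V : ℝ) = N := by rw [hV]
  have h2n : 2 * n = N := by omega
  rw [hcN] at hmarks hsum
  rw [h2n] at htot
  rw [hV] at hdc
  have hnN : (n : ℝ) = N / 2 := by
    have : ((2 * n : ℕ) : ℝ) = N := by exact_mod_cast h2n
    push_cast at this
    linarith
  have hfin : (4 / 3 : ℝ) ^ N * (Nat.card {G : SimpleGraph V // Q G} : ℝ) ≤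
      (4 / 3 : ℝ) ^ N * ((16 / (N : ℝ)) ^ E.card * X N / (N : ℝ) ^ A) := by
    calc (4 / 3 : ℝ) ^ N * (Nat.card {G : SimpleGraph V // Q G} : ℝ)
        ≤ (∑ π : Equiv.Perm V, (8 / (N : ℝ)) ^ (E.card - (piMarks π E).card) * w1 π) /
            (N : ℝ) ^ (A + 3) := hdc.trans hsum
      _ ≤ ((16 / (N : ℝ)) ^ E.card * ((2 * n + 1) * (6 * n) * ((4 / 3 : ℝ) ^ N * X N))) /
            (N : ℝ) ^ (A + 3) := by
          have hq : (0 : ℝ) ≤ (16 / (N : ℝ)) ^ E.card := by positivity
          gcongr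
          exact hmarks.trans (mul_le_mul_of_nonneg_left htot hq)
      _ = (4 / 3 : ℝ) ^ N * ((16 / (N : ℝ)) ^ E.card * X N / (N : ℝ) ^ A) *
            (3 * (N + 1) / (N : ℝ) ^ 2) := by
          rw [hnN, pow_add]
          field_simp
          ring
      _ ≤ (4 / 3 : ℝ) ^ N * ((16 / (N : ℝ)) ^ E.card * X N / (N : ℝ) ^ A) * 1 := by
          have hN4 : (4 : ℝ) ≤ N := by
            have : 4 ≤ N := by omega
            exact_mod_cast this
          gcongr
          rw [div_le_one (by positivity)]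
          nlinarith
      _ = _ := by rw [mul_one]
  have h43 : (0 : ℝ) < (4 / 3 : ℝ) ^ N := by positivity
  exact le_of_mul_le_mul_left hfin h43

end Pool.Agent.H38H.VO.Own
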